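import Pool.Agent.Helper46.RC.Final

set_option autoImplicit false

/-!
# Random Cayley graphs of alternating groups expand on all functions of degree at most `n ^ γ`

Definitions of the problem, the statement, and its proof from `Pool.Agent.RC.alt_limit`.
-/

namespace Pool.Agent.Results.MP_838239_al.DegreeGap

open Finset Filter Topology

/-- The complex functions on `Alt(n)` of degree at most `r`: the linear span of the functions
`g ↦ φ (g a₁, ..., g a_r)`, that is, of the functions of `g` that depend only on the images of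
`r` letters. -/
def degLE (n r : ℕ) : Submodule ℂ (alternatingGroup (Fin n) → ℂ) :=
  Submodule.span ℂ {h | ∃ (a : Fin r → Fin n) (φ : (Fin r → Fin n) → ℂ),
    h = fun g : alternatingGroup (Fin n) => φ (fun i => (g : Equiv.Perm (Fin n)) (a i))}

/-- The operator `Δ^S` of `S = {x_1^{±1}, ..., x_m^{±1}}` for the action by left translation,
`(s • f) g = f (s⁻¹ g)`. -/
def Delta {n m : ℕ} (x : Fin m → alternatingGroup (Fin n)) (f : alternatingGroup (Fin n) → ℂ) :
    alternatingGroup (Fin n) → ℂ :=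
  fun g => ∑ i, (f ((x i)⁻¹ * g) + f (x i * g))

/-- `ε`-expansion on the functions of degree at most `r`: every eigenvalue of `Δ^S` with an
eigenfunction of sum zero and degree at most `r` is at most `2m - ε`. -/
def ExpandingUpTo (n m r : ℕ) (ε : ℝ) (x : Fin m → alternatingGroup (Fin n)) : Prop :=
  ∀ f ∈ degLE n r, ∑ g, f g = 0 → f ≠ 0 →
    ∀ μ : ℝ, Delta x f = (μ : ℂ) • f → μ ≤ 2 * m - ε

/-- For every `γ < 1` there are `m₀ ≥ 2` and `ε > 0` such that for all `m ≥ m₀` the probability
that `m` independent uniform elements of `Alt(n)` are `ε`-expanding on all functions of degree at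
most `n ^ γ` tends to one. -/
theorem result : ∀ γ : ℝ, γ < 1 → ∃ m₀ : ℕ, 2 ≤ m₀ ∧ ∃ ε : ℝ, 0 < ε ∧ ∀ m ≥ m₀,
    Tendsto (fun n : ℕ =>
      (Nat.card {x : Fin m → alternatingGroup (Fin n) //
        ExpandingUpTo n m ⌊(n : ℝ) ^ γ⌋₊ ε x} : ℝ) /
          (Nat.card (alternatingGroup (Fin n)) : ℝ) ^ m) atTop (𝓝 1) := by
  intro γ hγ
  obtain ⟨m₀, hm₀, ε, hε, h⟩ := RC.alt_limit hγ
  refine ⟨m₀, hm₀, ε, hε, fun m hm => ?_⟩
  refine h m hm (fun n x => ExpandingUpTo n m ⌊(n : ℝ) ^ γ⌋₊ ε x) ?_
  intro n x hx f hf h0 hne μ hμ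
  refine hx f hf h0 hne μ fun g => ?_
  have h1 := congrFun hμ g
  simpa [Delta] using h1

end Pool.Agent.Results.MP_838239_al.DegreeGap
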