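import Pool.Agent.Helper36.RS.T3
import Mathlib.RepresentationTheory.Irreducible

set_option autoImplicit false

/-!
# Random Cayley graphs of `Alt(n)` with a fixed number of generators have very few exceptional
eigenvalues in every irreducible representation
-/

namespace Pool.Agent.Results.MP_838239_al.FewExceptional

open Finset Filter Topology

section Defs

variable {n m : ℕ} {V : Type*} [AddCommGroup V] [Module ℂ V]

/-- The operator `Δ^S = ∑ (ρ(x_i) + ρ(x_i)⁻¹)` of `S = {x_1^{±1}, ..., x_m^{±1}}` in the
representation `ρ`. -/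
noncomputable def Delta (ρ : Representation ℂ (alternatingGroup (Fin n)) V)
    (x : Fin m → alternatingGroup (Fin n)) : Module.End ℂ V :=
  ∑ i, (ρ (x i) + ρ (x i)⁻¹)

/-- The sum of the eigenspaces of `Δ^S` for the real eigenvalues larger than `2m - ε`; its
dimension is the number of these eigenvalues, counted with multiplicity. -/
noncomputable def excSpace (ρ : Representation ℂ (alternatingGroup (Fin n)) V)
    (x : Fin m → alternatingGroup (Fin n)) (ε : ℝ) : Submodule ℂ V :=
  ⨆ μ : {μ : ℝ // 2 * (m : ℝ) - ε < μ}, Module.End.eigenspace (Delta ρ x) (μ.1 : ℂ)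

end Defs

/-- In every nontrivial irreducible complex representation of `Alt(n)`, of dimension `d`, at most
`exp (- n ^ γ) * d` eigenvalues of `Δ^S` are larger than `2m - ε`. -/
def Few (n m : ℕ) (γ ε : ℝ) (x : Fin m → alternatingGroup (Fin n)) : Prop :=
  ∀ (V : Type) [AddCommGroup V] [Module ℂ V] [FiniteDimensional ℂ V]
    (ρ : Representation ℂ (alternatingGroup (Fin n)) V),
    ρ.IsIrreducible → ¬ ρ.IsTrivial →
      (Module.finrank ℂ (excSpace ρ x ε) : ℝ) ≤ Real.exp (-(n : ℝ) ^ γ) * Module.finrank ℂ V

theorem few_of_fewExc {n m : ℕ} {γ ε : ℝ} {x : Fin m → alternatingGroup (Fin n)}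
    (hx : RS.FewExc n m γ ε x) : Few n m γ ε x := by
  intro V _ _ _ ρ hirr hnt
  let e : V ≃ₗ[ℂ] (Fin (Module.finrank ℂ V) → ℂ) := (Module.finBasis ℂ V).equivFun
  let ρ' : alternatingGroup (Fin n) →* ((Fin (Module.finrank ℂ V) → ℂ) →ₗ[ℂ]
      (Fin (Module.finrank ℂ V) → ℂ)) :=
    { toFun := fun g => e.toLinearMap ∘ₗ ρ g ∘ₗ e.symm.toLinearMap
      map_one' := by ext v; simp
      map_mul' := fun g h => by ext v; simp }
  have he : ∀ g v, e (ρ g v) = ρ' g (e v) := by
    intro g v
    change e (ρ g v) = e (ρ g (e.symm (e v)))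
    rw [e.symm_apply_apply]
  have h1 := hx (Module.finrank ℂ V) ρ' (by
    intro W hW
    let W' : Subrepresentation ρ :=
      { toSubmodule := W.comap e.toLinearMap
        apply_mem_toSubmodule := fun g v hv => by
          rw [Submodule.mem_comap] at hv ⊢
          change e (ρ g v) ∈ W
          rw [he]
          exact hW g _ hv }
    rcases hirr.eq_bot_or_eq_top W' with h | h
    · left
      have h2 : W.comap e.toLinearMap = ⊥ := congrArg Subrepresentation.toSubmodule h
      rw [eq_bot_iff]
      intro w hw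
      have h3 : e.symm w ∈ W.comap e.toLinearMap := by
        rw [Submodule.mem_comap]
        change e (e.symm w) ∈ W
        rw [e.apply_symm_apply]
        exact hw
      rw [h2, Submodule.mem_bot] at h3
      rw [Submodule.mem_bot, ← e.apply_symm_apply w, h3, map_zero]
    · right
      have h2 : W.comap e.toLinearMap = ⊤ := congrArg Subrepresentation.toSubmodule h
      rw [eq_top_iff]
      intro w _
      have h3 : e.symm w ∈ W.comap e.toLinearMap := by
        rw [h2]
        trivial
      rw [Submodule.mem_comap] at h3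
      change e (e.symm w) ∈ W at h3
      rwa [e.apply_symm_apply] at h3) (by
    by_contra hcon
    push Not at hcon
    apply hnt
    refine ⟨fun g => ?_⟩
    refine LinearMap.ext fun v => ?_
    have h2 := hcon g (e v)
    rw [← he] at h2
    exact e.injective h2)
  refine le_trans ?_ h1
  have h2 := RS.exc_equiv (ρ : alternatingGroup (Fin n) →* (V →ₗ[ℂ] V)) ρ' e he x ε
  exact Nat.cast_le.2 h2

/-- For every `γ < 1` there are `m₀ ≥ 2` and `ε > 0` such that for all `m ≥ m₀`, with probability
tending to one, every nontrivial irreducible representation of `Alt(n)`, of dimension `d`, has at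
most `exp (- n ^ γ) * d` eigenvalues of `Δ^S` larger than `2m - ε`. -/
theorem result : ∀ γ : ℝ, γ < 1 → ∃ m₀ : ℕ, 2 ≤ m₀ ∧ ∃ ε : ℝ, 0 < ε ∧ ∀ m ≥ m₀,
    Tendsto (fun n : ℕ =>
      (Nat.card {x : Fin m → alternatingGroup (Fin n) // Few n m γ ε x} : ℝ) /
        (Nat.card (alternatingGroup (Fin n)) : ℝ) ^ m) atTop (𝓝 1) := by
  intro γ hγ
  obtain ⟨m₀, hm₀, ε, hε, h⟩ := RS.t3_main hγ
  refine ⟨m₀, hm₀, ε, hε, fun m hm => ?_⟩
  exact h m hm (fun n x => Few n m γ ε x) fun n x hx => few_of_fewExc hx

end Pool.Agent.Results.MP_838239_al.FewExceptional
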