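import Pool.Agent.Helper84.CV.Fin

set_option autoImplicit false

/-!
# Random Cayley graphs of `Alt(n)` with `C log n` generators are expanders

There are constants `C, c > 0` such that, as soon as `m(n) ≥ C log n` for all large `n`, with
probability tending to one all eigenvalues of `Δ^S` on the functions of sum zero on `Alt(n)` are
at most `(1 - c) 2m`, where `S` consists of `m = m(n)` independent uniform elements of `Alt(n)`
and their inverses.
-/

namespace Pool.Agent.Results.MP_838239_al.LogGenerators

open Finset Filter Topology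

/-- The operator `Δ^S` of `S = {x_1^{±1}, ..., x_m^{±1}}` for the action by left translation,
`(s • f) g = f (s⁻¹ g)`. -/
def Delta {n m : ℕ} (x : Fin m → alternatingGroup (Fin n)) (f : alternatingGroup (Fin n) → ℂ) :
    alternatingGroup (Fin n) → ℂ :=
  fun g => ∑ i, (f ((x i)⁻¹ * g) + f (x i * g))

/-- Relative expansion: every eigenvalue of `Δ^S` on the functions of sum zero is at most
`2m (1 - c)` (the operator is self-adjoint, so its eigenvalues are real). -/
def RelExpanding (n m : ℕ) (c : ℝ) (x : Fin m → alternatingGroup (Fin n)) : Prop :=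
  ∀ f : alternatingGroup (Fin n) → ℂ, ∑ g, f g = 0 → f ≠ 0 →
    ∀ μ : ℝ, Delta x f = (μ : ℂ) • f → μ ≤ 2 * m * (1 - c)

/-- There are `C, c > 0` such that, for every sequence `m(n) ≥ C log n`, the probability that
all eigenvalues of `Δ^S` on the functions of sum zero on `Alt(n)` are at most `2m(n) (1 - c)`, for
`m(n)` independent uniform elements of `Alt(n)`, tends to one. -/
theorem result : ∃ C c : ℝ, 0 < C ∧ 0 < c ∧ ∀ m : ℕ → ℕ,
    (∀ᶠ n : ℕ in atTop, C * Real.log n ≤ m n) →
      Tendsto (fun n : ℕ =>
        (Nat.card {x : Fin (m n) → alternatingGroup (Fin n) // RelExpanding n (m n) c x} : ℝ) /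
          (Nat.card (alternatingGroup (Fin n)) : ℝ) ^ (m n)) atTop (𝓝 1) := by
  obtain ⟨C, c, hC, hc, h⟩ := CV.t4_main
  refine ⟨C, c, hC, hc, fun m hm => ?_⟩
  refine h m hm (fun n x => RelExpanding n (m n) c x) ?_
  intro n x hx f h0 hne μ hμ
  refine hx f h0 hne μ fun g => ?_
  have h1 := congrFun hμ g
  simpa [Delta] using h1

end Pool.Agent.Results.MP_838239_al.LogGenerators
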